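import Pool.Agent.Results.MP_8cb858_nt.ThreeSelmerCubicTwists
import Pool.Agent.U150.RG.It
import Pool.Agent.U150.RG.Mom

/-!
# All the moments of the Selmer groups of the successive prime twists of EVERY `E_D`

`K` is the field of third roots of unity, `E_D : y² + D y = x³`, `SelRoot D` is the Selmer group of the
endomorphism `√-3` of `E_D`, of order `3 ^ (r + 1)`, `r = r(D)` (the points of the kernel of `√-3` contribute
a factor `3`; `size D = 3 ^ r`), and `Sel3 D` is the `3`-Selmer group (definitions and facts for one `D`: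
`ThreeSelmerCubicTwists.lean`, where the `D` are ordered by the norm and the law of `r` is determined).

We fix an ARBITRARY `D = ∏ π_k ^ e_k` with `n` different primes `π_k = 1` modulo `3`, `e_k = 1, 2`, and twist it
successively by prime elements `q_k, …, q_1, q_0 = 1` modulo `3`, which vary in this order.  The mean
`M_m(k)` of the `m`-th powers of the sizes is the iterated one:

`M_m(k) = lim_{X_k → ∞} mean_{q_k} ⋯ lim_{X_0 → ∞} mean_{q_0} size(D q_k^{f_k} ⋯ q_0^{f_0}) ^ m`,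

the mean over the primes `q_i` with `N(q_i) ≤ X_i`, `N(q_i) = 1 + 3 a_i` modulo `9` (those that divide the
previous element are left out), where `f_i = 1, 2` and the `a_i` are arbitrary numbers such that
`N(D q_k^{f_k} ⋯ q_0^{f_0})` is not `1` modulo `9`.

* All the limits exist, and `M_{m+1}(k+1) = 3^{-(m+1)} M_{m+1}(k) + (1 - 3^{-(m+1)}) (3^m + 1) M_m(k)`,
  `M_0(k) = 1`: the moments of order at most `m` satisfy a closed linear recursion.  The initial values
  `M_m(0)` are the means of `3 ^ (m corank (A + Y))` over the diagonal matrices `Y`, where `A` is the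
  matrix of the cubic residue symbols of `D`.
* `|M_m(k) - ∏_{i < m} (1 + 3^i)| ≤ 9^m 3^{m n + m (m - 1) / 2} 3^{-k}`: for EVERY `D` and EVERY `m` the
  `m`-th moment converges exponentially fast, with the ratio `1/3`, to the universal value
  `∏_{i < m} (1 + 3^i)`.
* The numbers `∏_{i < m} (1 + 3^i)` are the moments of the law
  `prob r = ∏_{i ≥ 0} (1 - 3^{-(2 i + 1)}) / ((3 - 1) (9 - 1) ⋯ (3 ^ r - 1))` of the family ordered by the norm.
* For the `3`-Selmer group and the rank: the iterated upper mean of `(#Sel3 / 3) ^ m` and of `3 ^ (m · rank)`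
  is at most `M_{2m}(k)`, hence at most `∏_{i < 2m} (1 + 3^i) + C 3^{-k}`, and the iterated lower mean of
  `(#Sel3 / 3) ^ m` is at least `M_m(k)`.  So all the moments of `#Sel3` and of `3 ^ rank` are bounded by
  universal constants in the limit `k → ∞`, whatever `E_D` is; for `m = 1`: the means of `#Sel3` are
  between `6` and `24`, and the mean of `3 ^ rank` is at most `8`.

Method: cubic reciprocity, the joint law of the cubic residue symbols of a variable prime (library: the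
theorem of Chebotarev), the corank of a symmetric matrix with a random new row and column
(`Pool.Agent.U687.MC`, helper687), and the action of the transition operator of the resulting Markov chain
on the functions `3 ^ (m r)`.
-/

set_option autoImplicit false

namespace Pool.Agent.Results.MP_8cb858_nt.AllMoments

open NumberField WeierstrassCurve Filter Topology Matrix
open Pool.Agent.Results.MP_8cb858_nt.ThreeSelmerCubicTwists
open scoped Classical ENNReal

variable {K : Type} [Field K] [NumberField K]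

/-- The prime elements that are `1` modulo `3`, of norm at most `X` and `1 + 3 a` modulo `9`. -/
def Primes (K : Type) [Field K] [NumberField K] (a : ZMod 3) (X : ℕ) : Set (𝓞 K) :=
  {q : 𝓞 K | Prime q ∧ (3 : 𝓞 K) ∣ q - 1 ∧ Algebra.norm ℤ q ≤ X ∧
    Algebra.norm ℤ q % 9 = 1 + 3 * (a.val : ℤ)}

/-- The mean of `T q` over the primes `q` of `Primes K a X`; the terms of the finitely many `q` that
divide `D` are left out. -/
noncomputable def average (a : ZMod 3) (D : 𝓞 K) (T : 𝓞 K → ℝ) (X : ℕ) : ℝ :=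
  (∑ᶠ q ∈ {q : 𝓞 K | q ∈ Primes K a X ∧ ¬ q ∣ D}, T q) / ((Primes K a X).ncard : ℝ)

/-- The iterated limits of the means of `T` over the `k`-fold prime twists of `D`. -/
noncomputable def iterated (a f : ℕ → ZMod 3) (T : 𝓞 K → ℝ) : ℕ → 𝓞 K → ℝ
  | 0, D => T D
  | k + 1, D => limUnder atTop (average (a k) D (fun q => iterated a f T k (D * q ^ (f k).val)))

/-- The limits of the means over the last prime exist. -/
def LimitExists (a f : ℕ → ZMod 3) (T : 𝓞 K → ℝ) (k : ℕ) (D : 𝓞 K) : Prop :=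
  Tendsto (average (a k) D (fun q => iterated a f T k (D * q ^ (f k).val))) atTop
    (𝓝 (iterated a f T (k + 1) D))

/-- The mean of `T q`, for `T` with values in `[0, ∞]`. -/
noncomputable def averageE (a : ZMod 3) (D : 𝓞 K) (T : 𝓞 K → ℝ≥0∞) (X : ℕ) : ℝ≥0∞ :=
  (∑ᶠ q ∈ {q : 𝓞 K | q ∈ Primes K a X ∧ ¬ q ∣ D}, T q) / ((Primes K a X).ncard : ℝ≥0∞)

/-- The iterated lower limits of the means of `T` over the `k`-fold prime twists of `D`. -/
noncomputable def lowerMean (a f : ℕ → ZMod 3) (T : 𝓞 K → ℝ≥0∞) : ℕ → 𝓞 K → ℝ≥0∞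
  | 0, D => T D
  | k + 1, D => liminf (averageE (a k) D (fun q => lowerMean a f T k (D * q ^ (f k).val))) atTop

/-- The iterated upper limits of the means of `T` over the `k`-fold prime twists of `D`. -/
noncomputable def upperMean (a f : ℕ → ZMod 3) (T : 𝓞 K → ℝ≥0∞) : ℕ → 𝓞 K → ℝ≥0∞
  | 0, D => T D
  | k + 1, D => limsup (averageE (a k) D (fun q => upperMean a f T k (D * q ^ (f k).val))) atTop

/-- The `m`-th power of the size `3 ^ r` of `SelRoot D`, which has order `3 ^ (r + 1)`. -/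
noncomputable def power (m : ℕ) (D : 𝓞 K) : ℝ := (((SelRoot (D : K)).ncard : ℝ) / 3) ^ m

/-- The `m`-th power of a third of the order of the `3`-Selmer group. -/
noncomputable def power3 (m : ℕ) (D : 𝓞 K) : ℝ≥0∞ := ((Nat.card (Sel3 (D : K)) : ℝ≥0∞) / 3) ^ m

/-- `3 ^ (m · rank E_D(K))`. -/
noncomputable def powerRank (m : ℕ) (D : 𝓞 K) : ℝ≥0∞ := 3 ^ (m * rank (D : K))

/-- The matrix of the cubic residue symbols, weighted by the exponents. -/
def symbols {n : ℕ} (e : Fin n → ZMod 3) (χ : Fin n → Fin n → ZMod 3) :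
    Matrix (Fin n) (Fin n) (ZMod 3) :=
  Matrix.of fun j k => e j * χ j k * e k

/-- The means `M_m(k)`: the initial values are the means of `3 ^ (m (n - rank (A + Y)))` over the
diagonal matrices `Y`, and the others are given by the recursion. -/
noncomputable def M {n : ℕ} (A : Matrix (Fin n) (Fin n) (ZMod 3)) : ℕ → ℕ → ℝ
  | 0, m => (∑ y : Fin n → ZMod 3, ((3 : ℝ) ^ (n - (A + diagonal y).rank)) ^ m) / 3 ^ n
  | _ + 1, 0 => 1
  | k + 1, m + 1 => (1 / 3) ^ (m + 1) * M A k (m + 1) +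
      (1 - (1 / 3) ^ (m + 1)) * (3 ^ m + 1) * M A k m

/-- The limit of the `m`-th moments: `∏_{i < m} (1 + 3^i)`. -/
noncomputable def limit (m : ℕ) : ℝ := ∏ i ∈ Finset.range m, ((3 : ℝ) ^ i + 1)

/-- The norm of `D q_k^{f_k} ⋯ q_0^{f_0}` is not `1` modulo `9` if `N(q_i) = 1 + 3 a_i` modulo `9`. -/
def NotExceptional (a f : ℕ → ZMod 3) (k : ℕ) (D : 𝓞 K) : Prop :=
  ¬ (9 : ℤ) ∣ Algebra.norm ℤ D * ∏ i ∈ Finset.range (k + 1),
    (1 + 3 * ((a i).val : ℤ)) ^ (f i).val - 1

section proof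

open Pool.Agent.U687.KT Pool.Agent.U150.RG
open Pool.Agent.U687.MC hiding prob
open Pool.Agent.Y692.QS (Ei w nr)

theorem iterated_eq (a f : ℕ → ZMod 3) (T : 𝓞 K → ℝ) (k : ℕ) :
    ∀ D : 𝓞 K, iterated a f T k D = it a f T k D := by
  induction k with
  | zero =>
    intro D
    rfl
  | succ k ih =>
    intro D
    show limUnder atTop (average (a k) D (fun q => iterated a f T k (D * q ^ (f k).val))) =
      limUnder atTop (av (a k) D (fun q => it a f T k (D * q ^ (f k).val)))
    have h : (fun q => iterated a f T k (D * q ^ (f k).val)) =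
        fun q => it a f T k (D * q ^ (f k).val) := funext fun q => ih _
    rw [h]
    rfl

theorem lower_eq (a f : ℕ → ZMod 3) (T : 𝓞 K → ℝ≥0∞) (k : ℕ) :
    ∀ D : 𝓞 K, lowerMean a f T k D = lo a f T k D := by
  induction k with
  | zero =>
    intro D
    rfl
  | succ k ih =>
    intro D
    show liminf (averageE (a k) D (fun q => lowerMean a f T k (D * q ^ (f k).val))) atTop =
      liminf (mE (PR K (a k)) (SR (a k) D) (fun q => lo a f T k (D * q ^ (f k).val))) atTop
    have h : (fun q => lowerMean a f T k (D * q ^ (f k).val)) =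
        fun q => lo a f T k (D * q ^ (f k).val) := funext fun q => ih _
    rw [h]
    rfl

theorem upper_eq (a f : ℕ → ZMod 3) (T : 𝓞 K → ℝ≥0∞) (k : ℕ) :
    ∀ D : 𝓞 K, upperMean a f T k D = up a f T k D := by
  induction k with
  | zero =>
    intro D
    rfl
  | succ k ih =>
    intro D
    show limsup (averageE (a k) D (fun q => upperMean a f T k (D * q ^ (f k).val))) atTop =
      limsup (mE (PR K (a k)) (SR (a k) D) (fun q => up a f T k (D * q ^ (f k).val))) atTop
    have h : (fun q => upperMean a f T k (D * q ^ (f k).val)) =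
        fun q => up a f T k (D * q ^ (f k).val) := funext fun q => ih _
    rw [h]
    rfl

/-- the power functions -/
noncomputable def pw (m r : ℕ) : ℝ := ((3 : ℝ) ^ r) ^ m

theorem UU_pw (m : ℕ) : UU (pw (m + 1)) = fun r => (1 / 3) ^ (m + 1) * pw (m + 1) r +
    ((1 - (1 / 3) ^ (m + 1)) * (3 ^ m + 1)) * pw m r := funext fun r => UV_pw m r

/-- **the moments of the chain** -/
theorem EE_pw {n : ℕ} {A : Matrix (Fin n) (Fin n) (ZMod 3)} (hA : A.IsSymm) (k : ℕ) :
    ∀ m, EE k A (pw m) = M A k m := by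
  induction k with
  | zero =>
    intro m
    rfl
  | succ k ih =>
    intro m
    rcases m with _ | m
    · have h1 : pw 0 = fun _ => 1 := funext fun r => pow_zero _
      rw [h1, EE_one]
      rfl
    · rw [EE_step k hA, UU_pw, EE_add, EE_smul, EE_smul, ih, ih]
      rfl

theorem M_zero {n : ℕ} (A : Matrix (Fin n) (Fin n) (ZMod 3)) (k : ℕ) : M A k 0 = 1 := by
  rcases k with _ | k
  · show (∑ y : Fin n → ZMod 3, ((3 : ℝ) ^ (n - (A + diagonal y).rank)) ^ 0) / 3 ^ n = 1
    simp only [pow_zero]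
    rw [Finset.sum_const, Finset.card_univ, Fintype.card_fun, Fintype.card_fin, ZMod.card,
      nsmul_eq_mul, mul_one]
    push_cast
    exact div_self (by positivity)
  · rfl

theorem M_init {n : ℕ} (A : Matrix (Fin n) (Fin n) (ZMod 3)) (m : ℕ) :
    |M A 0 m - dm m| ≤ BC n m := by
  obtain ⟨h1, h2⟩ := BC_ge n m
  have h3 : 0 ≤ M A 0 m := by
    show 0 ≤ (∑ y : Fin n → ZMod 3, ((3 : ℝ) ^ (n - (A + diagonal y).rank)) ^ m) / 3 ^ n
    positivity
  have h4 : M A 0 m ≤ (3 ^ n) ^ m := by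
    show (∑ y : Fin n → ZMod 3, ((3 : ℝ) ^ (n - (A + diagonal y).rank)) ^ m) / 3 ^ n ≤ _
    rw [div_le_iff₀ (by positivity)]
    have h5 : ∑ y : Fin n → ZMod 3, ((3 : ℝ) ^ (n - (A + diagonal y).rank)) ^ m ≤
        ∑ _y : Fin n → ZMod 3, ((3 : ℝ) ^ n) ^ m := by
      refine Finset.sum_le_sum fun y _ => ?_
      gcongr
      · norm_num
      · omega
    refine h5.trans (le_of_eq ?_)
    rw [Finset.sum_const, Finset.card_univ, Fintype.card_fun, Fintype.card_fin, ZMod.card,
      nsmul_eq_mul]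
    push_cast
    ring
  have h5 : 0 ≤ dm m := by
    unfold dm
    positivity
  rw [abs_le]
  constructor <;> linarith

theorem M_conv {n : ℕ} (A : Matrix (Fin n) (Fin n) (ZMod 3)) (m k : ℕ) :
    |M A k m - dm m| ≤ BC n m / 3 ^ k :=
  mom_conv (w := fun m => 3 ^ m + 1) (c := dm) (fun m => by positivity) dm_zero
    (fun m => dm_succ m) (fun m k => M A k m) (fun k => M_zero A k) (fun m k => rfl) (BC n)
    (fun m => (BC_pos n m).le) (M_init A) (fun m _ => BC_step n m) m k

theorem pow_inj' {a b : ℕ} (h : 3 ^ a = 3 ^ b) : a = b :=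
  Nat.pow_right_injective (by norm_num : 2 ≤ 3) h

/-- the facts for one element -/
theorem one_fact [IsCyclotomicExtension {3} ℚ K] (j : Ei ≃+* 𝓞 K)
    (hj : ∀ z : Ei, Algebra.norm ℤ (j z) = nr z) (hη : j w ^ 2 + j w + 1 = 0) {D : 𝓞 K} {n : ℕ}
    {π : Fin n → 𝓞 K} {e : Fin n → ZMod 3} {χ : Fin n → Fin n → ZMod 3}
    (hR : RF (j w) D n π e χ) (h9 : ¬ (9 : ℤ) ∣ Algebra.norm ℤ D - 1) {r : ℕ}
    (hr : sol e χ = 3 ^ (r + 1)) : (SelRoot (D : K)).ncard = 3 ^ (r + 1) ∧
      ∃ s, Nat.card (Sel3 (D : K)) = 3 ^ (s + 1) ∧ r ≤ s ∧ s ≤ 2 * r ∧ rank (D : K) ≤ 2 * r := by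
  obtain ⟨c1, c2⟩ := rf_class j hj hR
  have hC : InClass D := ⟨c1, c2, h9⟩
  obtain ⟨-, h2, -⟩ := Pool.Agent.Results.MP_8cb858_nt.ThreeSelmerCubicTwists.result K
  obtain ⟨⟨r', s, b1, b2, b3, b4, b7⟩, -, b5⟩ := h2 D hC
  have b6 : (SelRoot (D : K)).ncard = 3 ^ (r + 1) := by
    rw [b5 (j w) n π e χ hη hR]
    exact hr
  have b8 : r' = r := by
    rw [b1] at b6
    have := pow_inj' b6
    omega
  subst b8
  exact ⟨b6, s, b2, b3, b4, b7⟩

theorem three_div (s : ℕ) : ((3 ^ (s + 1) : ℕ) : ℝ≥0∞) / 3 = 3 ^ s := by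
  push_cast
  rw [pow_succ, mul_div_assoc, ENNReal.div_self (by norm_num) (by norm_num), mul_one]

section one
variable [IsCyclotomicExtension {3} ℚ K] {η : 𝓞 K} (hη : η ^ 2 + η + 1 = 0) {a f : ℕ → ZMod 3}
  (hf : ∀ i, f i ≠ 0) {D : 𝓞 K} {n : ℕ} {π : Fin n → 𝓞 K} {e : Fin n → ZMod 3}
  {χ : Fin n → Fin n → ZMod 3} (h : IsFact η D n π e χ) {k : ℕ} (hk : NotExceptional a f k D)
include hη h

theorem symm_symbols : (SM e χ).IsSymm := by
  obtain ⟨⟨j, hj⟩, -⟩ := Pool.Agent.Y455.CTK.jex K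
  obtain ⟨j, hj, rfl⟩ := exists_j j hj hη
  exact SM_symm (rf_symm j hj h)

include hf hk

/-- the moments -/
theorem moments (m : ℕ) : LimitExists a f (power m) k D ∧
    iterated a f (power m) (k + 1) D = M (symbols e χ) k m := by
  have hS := symm_symbols hη h
  obtain ⟨⟨j, hj⟩, -⟩ := Pool.Agent.Y455.CTK.jex K
  obtain ⟨j, hj, rfl⟩ := exists_j j hj hη
  obtain ⟨m1, m2⟩ := it_main j hj a f hf (power m) (pw m) (by
    intro D n π e χ hR h9 r hr
    obtain ⟨b1, -⟩ := one_fact j hj hη hR h9 hr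
    unfold power pw
    rw [b1, pow_succ]
    push_cast
    rw [mul_div_assoc, div_self (by norm_num), mul_one]) k D n π e χ h hk
  have e1 : iterated a f (power m) (k + 1) D = M (symbols e χ) k m := by
    rw [iterated_eq, m2]
    exact EE_pw hS k m
  refine ⟨?_, e1⟩
  unfold LimitExists
  rw [iterated_eq, m2]
  have h3 : (fun q => iterated a f (power m) k (D * q ^ (f k).val)) =
      fun q => it a f (power m) k (D * q ^ (f k).val) := funext fun q => iterated_eq a f _ k _
  rw [h3]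
  exact m1

theorem upper_of (T : 𝓞 K → ℝ≥0∞) (m : ℕ) (hT : ∀ D : 𝓞 K, ∀ r s,
    (SelRoot (D : K)).ncard = 3 ^ (r + 1) → Nat.card (Sel3 (D : K)) = 3 ^ (s + 1) → r ≤ s →
      s ≤ 2 * r → rank (D : K) ≤ 2 * r → T D ≤ ((((3 ^ r) ^ m : ℕ)) : ℝ≥0∞)) :
    upperMean a f T (k + 1) D ≤ ENNReal.ofReal (M (symbols e χ) k m) := by
  have hS := symm_symbols hη h
  obtain ⟨⟨j, hj⟩, -⟩ := Pool.Agent.Y455.CTK.jex K
  obtain ⟨j, hj, rfl⟩ := exists_j j hj hη
  have h1 := up_main j hj a f hf T (pw m) (by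
    intro r
    unfold pw
    positivity) (by
    intro D n π e χ hR h9 r hr
    obtain ⟨b1, s, b2, b3, b4, b5⟩ := one_fact j hj hη hR h9 hr
    refine (hT D r s b1 b2 b3 b4 b5).trans (le_of_eq ?_)
    rw [← ENNReal.ofReal_natCast]
    unfold pw
    push_cast
    rfl) k D n π e χ h hk
  rw [upper_eq]
  refine h1.trans (le_of_eq ?_)
  rw [EE_pw hS k m]
  rfl

theorem lower_of (T : 𝓞 K → ℝ≥0∞) (m : ℕ) (hT : ∀ D : 𝓞 K, ∀ r s,
    (SelRoot (D : K)).ncard = 3 ^ (r + 1) → Nat.card (Sel3 (D : K)) = 3 ^ (s + 1) → r ≤ s →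
      s ≤ 2 * r → rank (D : K) ≤ 2 * r → ((((3 ^ r) ^ m : ℕ)) : ℝ≥0∞) ≤ T D) :
    ENNReal.ofReal (M (symbols e χ) k m) ≤ lowerMean a f T (k + 1) D := by
  have hS := symm_symbols hη h
  obtain ⟨⟨j, hj⟩, -⟩ := Pool.Agent.Y455.CTK.jex K
  obtain ⟨j, hj, rfl⟩ := exists_j j hj hη
  have h1 := lo_main j hj a f hf T (pw m) (by
    intro r
    unfold pw
    positivity) (by
    intro D n π e χ hR h9 r hr
    obtain ⟨b1, s, b2, b3, b4, b5⟩ := one_fact j hj hη hR h9 hr
    refine le_trans (le_of_eq ?_) (hT D r s b1 b2 b3 b4 b5)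
    rw [← ENNReal.ofReal_natCast]
    unfold pw
    push_cast
    rfl) k D n π e χ h hk
  rw [lower_eq]
  refine le_trans (le_of_eq ?_) h1
  rw [EE_pw hS k m]
  rfl

end one

end proof

/-- **All the moments of the Selmer groups of the successive prime twists of every `E_D`.** -/
theorem result (K : Type) [Field K] [NumberField K] [IsCyclotomicExtension {3} ℚ K] :
    (∀ (η : 𝓞 K) (a f : ℕ → ZMod 3) (D : 𝓞 K) (n : ℕ) (π : Fin n → 𝓞 K) (e : Fin n → ZMod 3)
      (χ : Fin n → Fin n → ZMod 3) (m k : ℕ), η ^ 2 + η + 1 = 0 → (∀ i, f i ≠ 0) →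
      IsFact η D n π e χ → NotExceptional a f k D →
      (LimitExists a f (power m) k D ∧
        iterated a f (power m) (k + 1) D = M (symbols e χ) k m) ∧
      |M (symbols e χ) k m - limit m| ≤ (9 * 3 ^ n) ^ m * 3 ^ (m * (m - 1) / 2) / 3 ^ k ∧
      upperMean a f (power3 m) (k + 1) D ≤ ENNReal.ofReal (M (symbols e χ) k (2 * m)) ∧
      upperMean a f (powerRank m) (k + 1) D ≤ ENNReal.ofReal (M (symbols e χ) k (2 * m)) ∧
      ENNReal.ofReal (M (symbols e χ) k m) ≤ lowerMean a f (power3 m) (k + 1) D) ∧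
    (∀ (f : ℕ → ZMod 3) (D : 𝓞 K), (∀ i, f i ≠ 0) → InClass D → ∀ m : ℕ,
      Tendsto (fun k => iterated (fun _ => 0) f (power m) k D) atTop (𝓝 (limit m))) ∧
    ∀ m : ℕ, HasSum (fun r => ((3 : ℝ) ^ r) ^ m * prob r) (limit m) := by
  have part1 : ∀ (η : 𝓞 K) (a f : ℕ → ZMod 3) (D : 𝓞 K) (n : ℕ) (π : Fin n → 𝓞 K)
      (e : Fin n → ZMod 3) (χ : Fin n → Fin n → ZMod 3) (m k : ℕ), η ^ 2 + η + 1 = 0 →
      (∀ i, f i ≠ 0) → IsFact η D n π e χ → NotExceptional a f k D →
      (LimitExists a f (power m) k D ∧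
        iterated a f (power m) (k + 1) D = M (symbols e χ) k m) ∧
      |M (symbols e χ) k m - limit m| ≤ (9 * 3 ^ n) ^ m * 3 ^ (m * (m - 1) / 2) / 3 ^ k ∧
      upperMean a f (power3 m) (k + 1) D ≤ ENNReal.ofReal (M (symbols e χ) k (2 * m)) ∧
      upperMean a f (powerRank m) (k + 1) D ≤ ENNReal.ofReal (M (symbols e χ) k (2 * m)) ∧
      ENNReal.ofReal (M (symbols e χ) k m) ≤ lowerMean a f (power3 m) (k + 1) D := by
    intro η a f D n π e χ m k hη hf h hk
    refine ⟨moments hη hf h hk m, M_conv (symbols e χ) m k, ?_, ?_, ?_⟩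
    · refine upper_of hη hf h hk _ (2 * m) fun D r s b1 b2 b3 b4 b5 => ?_
      unfold power3
      rw [b2, three_div]
      push_cast
      rw [← pow_mul, ← pow_mul]
      exact pow_le_pow_right₀ (by norm_num) (by nlinarith)
    · refine upper_of hη hf h hk _ (2 * m) fun D r s b1 b2 b3 b4 b5 => ?_
      unfold powerRank
      push_cast
      rw [← pow_mul]
      exact pow_le_pow_right₀ (by norm_num) (by nlinarith)
    · refine lower_of hη hf h hk _ m fun D r s b1 b2 b3 b4 b5 => ?_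
      unfold power3
      rw [b2, three_div]
      push_cast
      rw [← pow_mul, ← pow_mul]
      exact pow_le_pow_right₀ (by norm_num) (Nat.mul_le_mul_right _ b3)
  refine ⟨part1, fun f D hf hD m => ?_, fun m => Pool.Agent.U150.RG.law_moments
    Pool.Agent.U687.MC.prob_succ Pool.Agent.U687.MC.prob_hasSum m⟩
  obtain ⟨-, h2, -⟩ := Pool.Agent.Results.MP_8cb858_nt.ThreeSelmerCubicTwists.result K
  obtain ⟨-, ⟨η, n, π, e, χ, hη, hfact⟩, -⟩ := h2 D hD
  have hne : ∀ k, NotExceptional (fun _ => 0) f k D := by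
    intro k
    unfold NotExceptional
    have : ∏ i ∈ Finset.range (k + 1), (1 + 3 * (((0 : ZMod 3)).val : ℤ)) ^ (f i).val = 1 := by
      refine Finset.prod_eq_one fun i _ => ?_
      rw [ZMod.val_zero]
      simp
    rw [this, mul_one]
    exact hD.2.2
  have hp : ∀ k, _ := fun k => part1 η (fun _ => 0) f D n π e χ m k hη hf hfact (hne k)
  rw [← tendsto_add_atTop_iff_nat 1, tendsto_iff_dist_tendsto_zero]
  have lim0 : Tendsto (fun k : ℕ => ((9 * 3 ^ n) ^ m * 3 ^ (m * (m - 1) / 2) : ℝ) * (1 / 3) ^ k)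
      atTop (𝓝 0) := by
    have := (tendsto_pow_atTop_nhds_zero_of_lt_one (r := (1 / 3 : ℝ)) (by norm_num)
      (by norm_num)).const_mul ((9 * 3 ^ n) ^ m * 3 ^ (m * (m - 1) / 2) : ℝ)
    rwa [mul_zero] at this
  refine squeeze_zero (fun k => dist_nonneg) (fun k => ?_) lim0
  rw [Real.dist_eq, (hp k).1.2]
  refine (hp k).2.1.trans (le_of_eq ?_)
  rw [_root_.one_div_pow, mul_one_div]

end Pool.Agent.Results.MP_8cb858_nt.AllMoments
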