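import Pool.Agent.U120.DK.Fin

/-!
# Selmer groups of cubic twists, the primes from ARBITRARY sets of `X^(2/3 + η)` primes of `ℚ(√-3)`

`K` is the field of third roots of unity and `E_D : y² + D y = x³`, for the cube-free `D = 1` modulo `3` of
`𝓞 K` whose norm is not `1` modulo `9` (the class of `MP_8cb858_nt/ThreeSelmerCubicTwists`). `Sel3 D` is the
`3`-Selmer group of `E_D` over `K`, and `SelRoot D` is the Selmer group of the endomorphism `√-3`.

Let `C_1, …, C_k` be ANY finite sets of at most `s` primary primes of `𝓞 K` (prime elements `1` modulo `3`) of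
norm at most `X`, for example all equal to an arbitrary set of `X^(2/3 + η)` primes (primes in a short interval
or in a sector, values of a polynomial, an adversarial choice), and let `e_1, …, e_k` be equal to `1` or `2`.
Consider the tuples of pairwise different `π_1 ∈ C_1, …, π_k ∈ C_k` for which `D = ∏ π_i ^ e_i` is in the class.

* THE LAW. The order of `SelRoot D` is `3 ^ (r + 1)` for `corank (k - 1) r` of these tuples, where `corank n r` is
  the exact probability that a random symmetric `n × n` matrix over the field with three elements has a kernel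
  of dimension `r` (closed form; also for the sets of values of `r`). The error is at most
  `42 · 3^(k(k+1)/2) · √X · s^(k - 3/4)`; for `s ≥ X^(2/3 + η)` this is a power saving.
* For `k → ∞` the probabilities converge exponentially to `prob r = ∏_{i ≥ 0} (1 - 3^(-2i-1)) /
  ((3 - 1) (9 - 1) ⋯ (3^r - 1))`.
* The average order of `SelRoot D` is `6 - 3^(2 - k)`, up to `3^(k+1)` times the error.
* `Sel3 D` has the minimal order `3` (and `E_D(K)` has rank zero) for exactly the proportion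
  `∏_{i < ⌊k/2⌋} (1 - 3^(-2i-1))` of these tuples; its dimension is at most `2 m + 1` for at least
  the proportion `corank (k - 1) 0 + ⋯ + corank (k - 1) m` and at least `m + 1` for at least the proportion
  `1 - corank (k - 1) 0 - ⋯ - corank (k - 1) (m - 1)`, up to the error.

The dependence of the Selmer groups on the cubic residue symbols is from the starting library (`R419/KL`), also
the passage from bilinear estimates to the joint law of the symbols (`Y710/XK`) and the count of the nonsingular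
symmetric matrices (`Y804`, `Y31`). New here (`Pool/Agent/U120/DK`): a bilinear estimate for cubic residue
symbols which is nontrivial for ARBITRARY sets of more than `X^(2/3)` primes (Fejer weights in the plane and the
operator norm of the matrices of the symbols), the exact law for fixed `k`, the average.
-/

set_option autoImplicit false

open scoped Classical

namespace Pool.Agent.Results.MP_8cb858_nt.SelmerGroupsSparseSets

open NumberField WeierstrassCurve Filter
open Pool.Agent.TH841.SH.D (Pt act Gal Coch)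
open Pool.Agent.TH841.NF.D (IsShaCoc)

variable {K : Type} [Field K] [NumberField K]

/-- The curve `E_D : y² + D y = x³`. -/
def curve {K : Type} [Field K] (D : K) : WeierstrassCurve K := ⟨0, 0, D, 0, 0⟩

/-- The group of the continuous cocycles of the absolute Galois group of `K` with values in `E_D[3]`
that are coboundaries in `E_D` at all the places of `K`. -/
def Cocycles (D : K) : AddSubgroup (Coch (curve D)) where
  carrier := {f | IsShaCoc (curve D) f ∧ ∀ σ, 3 • f σ = 0}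
  zero_mem' := (Pool.Agent.R419.KL.coc3 D).zero_mem'
  add_mem' := (Pool.Agent.R419.KL.coc3 D).add_mem'
  neg_mem' := (Pool.Agent.R419.KL.coc3 D).neg_mem'

/-- The group of the coboundaries of the points of `E_D[3]`. -/
def Coboundaries (D : K) : AddSubgroup (Coch (curve D)) where
  carrier := {f | ∃ P : Pt (curve D) (AlgebraicClosure K), 3 • P = 0 ∧
    ∀ σ : Gal K, f σ = act (curve D) σ.toAlgHom P - P}
  zero_mem' := (Pool.Agent.R419.KL.cob3 D).zero_mem'
  add_mem' := (Pool.Agent.R419.KL.cob3 D).add_mem'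
  neg_mem' := (Pool.Agent.R419.KL.cob3 D).neg_mem'

/-- The `3`-Selmer group of `E_D` over `K`: the kernel of `H¹(K, E_D[3]) → ∏ H¹(K_v, E_D)`. -/
def Sel3 (D : K) : Type := Cocycles D ⧸ (Coboundaries D).addSubgroupOf (Cocycles D)

/-- The Selmer group of the endomorphism `√-3`: the continuous cocycles with values in its kernel
`{0, (0, 0), (0, -D)}` that are coboundaries in `E_D` at all the places of `K`. -/
def SelRoot (D : K) : Set (Coch (curve D)) :=
  {f | IsShaCoc (curve D) f ∧ ∀ σ, f σ = 0 ∨ ∃ y h, f σ = Affine.Point.some 0 y h}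

/-- The rank of `E_D(K)` over `ℤ`. -/
noncomputable def rank (D : K) : ℕ := Module.finrank ℤ (curve D).toAffine.Point

/-- `D` is cube-free and `1` modulo `3`, and its norm is not `1` modulo `9`. -/
def InClass (D : 𝓞 K) : Prop :=
  (3 : 𝓞 K) ∣ D - 1 ∧ (∀ x : 𝓞 K, x ^ 3 ∣ D → IsUnit x) ∧ ¬ (9 : ℤ) ∣ Algebra.norm ℤ D - 1

/-- the primary primes: the prime elements `1` modulo `3` (every prime ideal prime to `3` is generated by
exactly one of them) -/
def Primary (π : 𝓞 K) : Prop := Prime π ∧ (3 : 𝓞 K) ∣ π - 1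

/-- `D = ∏ π_i ^ e_i` -/
noncomputable def prodPow {k : ℕ} (π : Fin k → 𝓞 K) (e : Fin k → ℕ) : 𝓞 K := ∏ i, π i ^ e i

/-- the set of the tuples of pairwise different `π_i ∈ C_i` with `D = ∏ π_i ^ e_i` in the class -/
noncomputable def family {k : ℕ} (C : Fin k → Finset (𝓞 K)) (e : Fin k → ℕ) : Finset (Fin k → 𝓞 K) :=
  (Fintype.piFinset C).filter fun π => Function.Injective π ∧ InClass (prodPow π e)

/-- the number of the tuples of the family for which `D = ∏ π_i ^ e_i` has the property `P` -/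
noncomputable def count {k : ℕ} (C : Fin k → Finset (𝓞 K)) (e : Fin k → ℕ) (P : 𝓞 K → Prop) : ℝ :=
  (((family C e).filter fun π => P (prodPow π e)).card : ℝ)

/-- the error, for sets of at most `s` primes of norm at most `X` -/
noncomputable def error (k X s : ℕ) : ℝ :=
  42 * 3 ^ (k * (k + 1) / 2) * √(X : ℝ) * (s : ℝ) ^ k / (s : ℝ) ^ ((3 : ℝ) / 4)

/-- `∏_{i < r} (1 - 3^(i-n)) / (3^(i+1) - 1) · ∏_{i < ⌊(n-r+1)/2⌋} (1 - 3^(-2i-1))` -/
noncomputable def corank (n r : ℕ) : ℝ :=
  (∏ i ∈ Finset.range r, (1 - (1 / 3 : ℝ) ^ (n - i)) / ((3 : ℝ) ^ (i + 1) - 1)) *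
    ∏ i ∈ Finset.range ((n - r + 1) / 2), (1 - (1 / 3 : ℝ) ^ (2 * i + 1))

/-- `∏_{i ≥ 0} (1 - 3^{-(2 i + 1)}) / ((3 - 1) (9 - 1) ⋯ (3 ^ r - 1))`. -/
noncomputable def prob (r : ℕ) : ℝ :=
  (∏' i : ℕ, (1 - (1 / 3 : ℝ) ^ (2 * i + 1))) / ∏ i ∈ Finset.range r, ((3 : ℝ) ^ (i + 1) - 1)

section proof

open Finset
open Pool.Agent.U120.DK (cf qS qS_cf qS_lim mean_cf lawR tup InR Pd Pm er)

theorem count_eq {k : ℕ} (C : Fin k → Finset (𝓞 K)) (e : Fin k → ℕ) (P : 𝓞 K → Prop) :
    count C e P = (tup C e P : ℝ) := by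
  unfold count family Pool.Agent.U120.DK.tup
  rw [Finset.filter_filter]
  congr 2
  refine Finset.filter_congr fun π _ => ?_
  exact and_assoc

theorem count_true {k : ℕ} (C : Fin k → Finset (𝓞 K)) (e : Fin k → ℕ) :
    ((family C e).card : ℝ) = count C e fun _ => True := by
  unfold count
  congr 2
  ext π
  simp only [Finset.mem_filter, and_true]

theorem law [IsCyclotomicExtension {3} ℚ K] {k X s : ℕ} (hk : 1 ≤ k)
    (hX : 1 ≤ X) (hs : 1 ≤ s) (C : Fin k → Finset (𝓞 K))
    (hC : ∀ i, ∀ π ∈ C i, Primary π ∧ Algebra.norm ℤ π ≤ X) (hCs : ∀ i, (C i).card ≤ s)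
    {e : Fin k → ℕ} (he : ∀ i, e i = 1 ∨ e i = 2) (R : Finset ℕ) :
    |count C e (fun D => ∃ r ∈ R, (SelRoot (D : K)).ncard = 3 ^ (r + 1)) -
      (∑ r ∈ R, corank (k - 1) r) * (family C e).card| ≤ error k X s := by
  rw [count_true, count_eq, count_eq]
  exact lawR hk hX hs C hC hCs he R

theorem count_congr {k : ℕ} {C : Fin k → Finset (𝓞 K)} {e : Fin k → ℕ} {P Q : 𝓞 K → Prop}
    (h : ∀ D, InClass D → (P D ↔ Q D)) : count C e P = count C e Q := by
  unfold count
  congr 2
  refine Finset.filter_congr fun π hπ => h _ ?_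
  unfold family at hπ
  exact (Finset.mem_filter.1 hπ).2.2

theorem count_mono {k : ℕ} {C : Fin k → Finset (𝓞 K)} {e : Fin k → ℕ} {P Q : 𝓞 K → Prop}
    (h : ∀ D, InClass D → P D → Q D) : count C e P ≤ count C e Q := by
  unfold count
  have h1 : (family C e).filter (fun π => P (prodPow π e)) ⊆
      (family C e).filter fun π => Q (prodPow π e) := by
    intro π hπ
    rw [Finset.mem_filter] at hπ ⊢
    refine ⟨hπ.1, h _ ?_ hπ.2⟩
    have h2 := hπ.1
    unfold family at h2
    exact (Finset.mem_filter.1 h2).2.2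
  exact_mod_cast Finset.card_le_card h1

theorem count_not {k : ℕ} (C : Fin k → Finset (𝓞 K)) (e : Fin k → ℕ) (P : 𝓞 K → Prop) :
    count C e P + count C e (fun D => ¬ P D) = (family C e).card := by
  have h := Finset.card_filter_add_card_filter_not (s := family C e) (fun π => P (prodPow π e))
  unfold count
  rw [← Nat.cast_add, Nat.cast_inj]
  convert h

/-- the facts on one `D` -/
theorem facts [IsCyclotomicExtension {3} ℚ K] (D : 𝓞 K) (hD : InClass D) :
    ∃ r s : ℕ, (SelRoot (D : K)).ncard = 3 ^ (r + 1) ∧ Nat.card (Sel3 (D : K)) = 3 ^ (s + 1) ∧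
      r ≤ s ∧ s ≤ 2 * r ∧ rank (D : K) ≤ 2 * r := by
  obtain ⟨ω, hω⟩ : ∃ ω : K, ω ^ 2 + ω + 1 = 0 := by
    obtain ⟨⟨j, hj⟩, -⟩ := Pool.Agent.Y455.CTK.jex K
    have hww : (Pool.Agent.Y692.QS.w : Pool.Agent.Y692.QS.Ei) ^ 2 + Pool.Agent.Y692.QS.w + 1 = 0 := by
      decide
    refine ⟨((j Pool.Agent.Y692.QS.w : 𝓞 K) : K), ?_⟩
    have h2 := congrArg (fun z => ((j z : 𝓞 K) : K)) hww
    simp only [map_add, map_pow, map_one, map_zero] at h2
    exact h2
  exact (Pool.Agent.R419.KL.finalSel3 K ω hω).1 D hD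

theorem sel3_iff [IsCyclotomicExtension {3} ℚ K] (D : 𝓞 K) (hD : InClass D) :
    (Nat.card (Sel3 (D : K)) = 3 ∧ rank (D : K) = 0) ↔
      ∃ r ∈ ({0} : Finset ℕ), (SelRoot (D : K)).ncard = 3 ^ (r + 1) := by
  obtain ⟨r, s, h1, h2, h3, h4, h5⟩ := facts D hD
  constructor
  · rintro ⟨h6, -⟩
    refine ⟨0, Finset.mem_singleton_self 0, ?_⟩
    rw [h2] at h6
    have h7 : s = 0 := by
      by_contra hne
      have : 3 ^ 2 ≤ 3 ^ (s + 1) := Nat.pow_le_pow_right (by norm_num) (by omega)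
      omega
    have h8 : r = 0 := by omega
    rw [h1, h8]
  · rintro ⟨r', hr', h6⟩
    rw [Finset.mem_singleton] at hr'
    subst hr'
    rw [h1] at h6
    have h8 := Nat.pow_right_injective (le_refl 2 |>.trans (by norm_num)) h6
    have h9 : r = 0 := by omega
    have h10 : s = 0 := by omega
    refine ⟨by rw [h2, h10]; norm_num, by omega⟩

theorem law3 [IsCyclotomicExtension {3} ℚ K] {k X s : ℕ} (hk : 1 ≤ k)
    (hX : 1 ≤ X) (hs : 1 ≤ s) (C : Fin k → Finset (𝓞 K))
    (hC : ∀ i, ∀ π ∈ C i, Primary π ∧ Algebra.norm ℤ π ≤ X) (hCs : ∀ i, (C i).card ≤ s)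
    {e : Fin k → ℕ} (he : ∀ i, e i = 1 ∨ e i = 2) :
    |count C e (fun D => Nat.card (Sel3 (D : K)) = 3 ∧ rank (D : K) = 0) -
      (∏ i ∈ Finset.range (k / 2), (1 - (1 / 3 : ℝ) ^ (2 * i + 1))) * (family C e).card| ≤
        error k X s := by
  have h := law hk hX hs C hC hCs he {0}
  rw [← count_congr sel3_iff, Finset.sum_singleton] at h
  have e1 : corank (k - 1) 0 = ∏ i ∈ Finset.range (k / 2), (1 - (1 / 3 : ℝ) ^ (2 * i + 1)) := by
    unfold corank
    rw [Finset.prod_range_zero, one_mul, Nat.sub_zero, Nat.sub_add_cancel hk]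
  rwa [e1] at h

theorem small [IsCyclotomicExtension {3} ℚ K] {k X s : ℕ} (hk : 1 ≤ k)
    (hX : 1 ≤ X) (hs : 1 ≤ s) (C : Fin k → Finset (𝓞 K))
    (hC : ∀ i, ∀ π ∈ C i, Primary π ∧ Algebra.norm ℤ π ≤ X) (hCs : ∀ i, (C i).card ≤ s)
    {e : Fin k → ℕ} (he : ∀ i, e i = 1 ∨ e i = 2) (m : ℕ) :
    (∑ r ∈ Finset.range (m + 1), corank (k - 1) r) * (family C e).card - error k X s ≤
      count C e (fun D => Nat.card (Sel3 (D : K)) ≤ 3 ^ (2 * m + 1)) ∧
    (1 - ∑ r ∈ Finset.range m, corank (k - 1) r) * (family C e).card - error k X s ≤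
      count C e (fun D => 3 ^ (m + 1) ≤ Nat.card (Sel3 (D : K))) := by
  constructor
  · have h := (abs_le.1 (law hk hX hs C hC hCs he (Finset.range (m + 1)))).1
    have h1 : count C e (fun D => ∃ r ∈ Finset.range (m + 1), (SelRoot (D : K)).ncard = 3 ^ (r + 1)) ≤
        count C e (fun D => Nat.card (Sel3 (D : K)) ≤ 3 ^ (2 * m + 1)) := by
      refine count_mono fun D hD => ?_
      rintro ⟨r', hr', h6⟩
      obtain ⟨r, s, h1, h2, h3, h4, h5⟩ := facts D hD
      rw [h1] at h6
      have h8 := Nat.pow_right_injective (le_refl 2 |>.trans (by norm_num)) h6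
      rw [Finset.mem_range] at hr'
      rw [h2]
      exact Nat.pow_le_pow_right (by norm_num) (by omega)
    linarith
  · have h := (abs_le.1 (law hk hX hs C hC hCs he (Finset.range m))).2
    have h0 := count_not C e
      (fun D => ∃ r ∈ Finset.range m, (SelRoot (D : K)).ncard = 3 ^ (r + 1))
    have h1 : count C e (fun D => ¬ ∃ r ∈ Finset.range m, (SelRoot (D : K)).ncard = 3 ^ (r + 1)) ≤
        count C e (fun D => 3 ^ (m + 1) ≤ Nat.card (Sel3 (D : K))) := by
      refine count_mono fun D hD h6 => ?_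
      obtain ⟨r, s, h1, h2, h3, h4, h5⟩ := facts D hD
      have h7 : m ≤ r := by
        by_contra h8
        exact h6 ⟨r, Finset.mem_range.2 (by omega), h1⟩
      rw [h2]
      exact Nat.pow_le_pow_right (by norm_num) (by omega)
    linarith

theorem rel_small {η : ℝ} {k X s : ℕ} (hX : 1 ≤ X) (h : (X : ℝ) ^ (2 / 3 + η) ≤ s) :
    error k X s ≤ 42 * 3 ^ (k * (k + 1) / 2) * (s : ℝ) ^ k / (X : ℝ) ^ (3 * η / 4) := by
  have hX0 : (0 : ℝ) < X := by exact_mod_cast hX
  have h1 : √(X : ℝ) * (X : ℝ) ^ (3 * η / 4) ≤ (s : ℝ) ^ ((3 : ℝ) / 4) := by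
    have h2 : ((X : ℝ) ^ (2 / 3 + η)) ^ ((3 : ℝ) / 4) ≤ (s : ℝ) ^ ((3 : ℝ) / 4) :=
      Real.rpow_le_rpow (by positivity) h (by norm_num)
    refine le_trans (le_of_eq ?_) h2
    rw [Real.sqrt_eq_rpow, ← Real.rpow_add hX0, ← Real.rpow_mul hX0.le]
    congr 1
    ring
  have hs0 : 0 < (s : ℝ) ^ ((3 : ℝ) / 4) := lt_of_lt_of_le (by positivity) h1
  unfold error
  rw [div_le_div_iff₀ hs0 (by positivity)]
  calc 42 * 3 ^ (k * (k + 1) / 2) * √(X : ℝ) * (s : ℝ) ^ k * (X : ℝ) ^ (3 * η / 4) =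
      42 * 3 ^ (k * (k + 1) / 2) * (s : ℝ) ^ k * (√(X : ℝ) * (X : ℝ) ^ (3 * η / 4)) := by ring
    _ ≤ _ := mul_le_mul_of_nonneg_left h1 (by positivity)

/-- the orders are at most `3 ^ k` -/
theorem order_lt [IsCyclotomicExtension {3} ℚ K] {k : ℕ} (hk : 1 ≤ k) {X : ℕ}
    {C : Fin k → Finset (𝓞 K)} (hC : ∀ i, ∀ π ∈ C i, Primary π ∧ Algebra.norm ℤ π ≤ X)
    {e : Fin k → ℕ} (he : ∀ i, e i = 1 ∨ e i = 2) {π : Fin k → 𝓞 K} (hπ : π ∈ family C e) :
    ∃ r, r < k ∧ (SelRoot (prodPow π e : K)).ncard = 3 ^ (r + 1) := by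
  unfold family at hπ
  rw [Finset.mem_filter, Fintype.mem_piFinset] at hπ
  obtain ⟨h1, h2, h3⟩ := hπ
  exact Pool.Agent.U120.DK.order_lt hk (fun i => (hC i _ (h1 i)).1) he h2 h3

theorem average [IsCyclotomicExtension {3} ℚ K] {k X s : ℕ} (hk : 1 ≤ k)
    (hX : 1 ≤ X) (hs : 1 ≤ s) (C : Fin k → Finset (𝓞 K))
    (hC : ∀ i, ∀ π ∈ C i, Primary π ∧ Algebra.norm ℤ π ≤ X) (hCs : ∀ i, (C i).card ≤ s)
    {e : Fin k → ℕ} (he : ∀ i, e i = 1 ∨ e i = 2) :
    |∑ π ∈ family C e, ((SelRoot (prodPow π e : K)).ncard : ℝ) -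
      (6 - 9 / 3 ^ k) * (family C e).card| ≤ 3 ^ (k + 1) * error k X s := by
  have e1 : ∑ π ∈ family C e, ((SelRoot (prodPow π e : K)).ncard : ℝ) =
      ∑ r ∈ Finset.range k, (3 : ℝ) ^ (r + 1) *
        count C e (fun D => ∃ r' ∈ ({r} : Finset ℕ), (SelRoot (D : K)).ncard = 3 ^ (r' + 1)) := by
    have e2 : ∀ r, (3 : ℝ) ^ (r + 1) *
        count C e (fun D => ∃ r' ∈ ({r} : Finset ℕ), (SelRoot (D : K)).ncard = 3 ^ (r' + 1)) =
        ∑ π ∈ family C e, if (SelRoot (prodPow π e : K)).ncard = 3 ^ (r + 1) then (3 : ℝ) ^ (r + 1)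
          else 0 := by
      intro r
      unfold count
      rw [← Finset.sum_filter, Finset.sum_const, nsmul_eq_mul, mul_comm]
      congr 3
      ext π
      simp only [Finset.mem_filter, Finset.mem_singleton, exists_eq_left]
    simp only [e2]
    rw [Finset.sum_comm]
    refine Finset.sum_congr rfl fun π hπ => ?_
    obtain ⟨r, hr, h⟩ := order_lt hk hC he hπ
    rw [Finset.sum_eq_single r]
    · rw [if_pos h, h]
      push_cast
      rfl
    · intro r' _ hne
      rw [if_neg]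
      rw [h]
      intro h'
      have := Nat.pow_right_injective (le_refl 2 |>.trans (by norm_num)) h'
      omega
    · intro h'
      exact absurd (Finset.mem_range.2 hr) h'
  have e3 : (6 - 9 / 3 ^ k : ℝ) = ∑ r ∈ Finset.range k, (3 : ℝ) ^ (r + 1) * corank (k - 1) r := by
    have h1 := (mean_cf (k - 1)).2
    rw [Nat.sub_add_cancel hk] at h1
    have h2 : ∑ r ∈ Finset.range k, (3 : ℝ) ^ (r + 1) * corank (k - 1) r =
        3 * ∑ r ∈ Finset.range k, (3 : ℝ) ^ r * cf (k - 1) r := by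
      rw [Finset.mul_sum]
      refine Finset.sum_congr rfl fun r _ => ?_
      rw [pow_succ]
      show _ * cf (k - 1) r = _
      ring
    rw [h2, h1]
    have h3 : (3 : ℝ) ^ k = 3 * 3 ^ (k - 1) := by
      rw [← pow_succ', Nat.sub_add_cancel hk]
    rw [h3, one_div, inv_pow]
    field_simp
    ring
  rw [e1, e3, Finset.sum_mul, ← Finset.sum_sub_distrib]
  refine (Finset.abs_sum_le_sum_abs _ _).trans ?_
  have h4 : ∀ r ∈ Finset.range k, |(3 : ℝ) ^ (r + 1) *
      count C e (fun D => ∃ r' ∈ ({r} : Finset ℕ), (SelRoot (D : K)).ncard = 3 ^ (r' + 1)) -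
        (3 : ℝ) ^ (r + 1) * corank (k - 1) r * (family C e).card| ≤ (3 : ℝ) ^ (r + 1) * error k X s := by
    intro r _
    have h5 := law hk hX hs C hC hCs he {r}
    rw [Finset.sum_singleton] at h5
    rw [mul_assoc, ← mul_sub, abs_mul, abs_of_pos (by positivity : (0 : ℝ) < 3 ^ (r + 1))]
    exact mul_le_mul_of_nonneg_left h5 (by positivity)
  refine (Finset.sum_le_sum h4).trans ?_
  rw [← Finset.sum_mul]
  have h6 : ∑ r ∈ Finset.range k, (3 : ℝ) ^ (r + 1) ≤ 3 ^ (k + 1) := by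
    have h7 : ∀ m : ℕ, ∑ r ∈ Finset.range m, (3 : ℝ) ^ (r + 1) ≤ 3 ^ (m + 1) := by
      intro m
      induction m with
      | zero => norm_num
      | succ m ih =>
        rw [Finset.sum_range_succ, pow_succ (3 : ℝ) (m + 1)]
        have : (0 : ℝ) < 3 ^ (m + 1) := by positivity
        linarith
    exact h7 k
  refine mul_le_mul_of_nonneg_right h6 ?_
  unfold error
  positivity

end proof

theorem result (K : Type) [Field K] [NumberField K] [IsCyclotomicExtension {3} ℚ K] :
    (∀ (k X s : ℕ) (C : Fin k → Finset (𝓞 K)) (e : Fin k → ℕ), 1 ≤ k → 1 ≤ X → 1 ≤ s →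
      (∀ i, ∀ π ∈ C i, Primary π ∧ Algebra.norm ℤ π ≤ X) → (∀ i, (C i).card ≤ s) →
      (∀ i, e i = 1 ∨ e i = 2) →
      -- the law of the Selmer group of `√-3`
      (∀ R : Finset ℕ, |count C e (fun D => ∃ r ∈ R, (SelRoot (D : K)).ncard = 3 ^ (r + 1)) -
        (∑ r ∈ R, corank (k - 1) r) * (family C e).card| ≤ error k X s) ∧
      -- the average order
      |∑ π ∈ family C e, ((SelRoot (prodPow π e : K)).ncard : ℝ) -
        (6 - 9 / 3 ^ k) * (family C e).card| ≤ 3 ^ (k + 1) * error k X s ∧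
      -- the 3-Selmer group
      |count C e (fun D => Nat.card (Sel3 (D : K)) = 3 ∧ rank (D : K) = 0) -
        (∏ i ∈ Finset.range (k / 2), (1 - (1 / 3 : ℝ) ^ (2 * i + 1))) * (family C e).card| ≤
          error k X s ∧
      (∀ m : ℕ, (∑ r ∈ Finset.range (m + 1), corank (k - 1) r) * (family C e).card - error k X s ≤
          count C e (fun D => Nat.card (Sel3 (D : K)) ≤ 3 ^ (2 * m + 1)) ∧
        (1 - ∑ r ∈ Finset.range m, corank (k - 1) r) * (family C e).card - error k X s ≤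
          count C e (fun D => 3 ^ (m + 1) ≤ Nat.card (Sel3 (D : K))))) ∧
    -- the probabilities
    (∀ n r : ℕ, corank n r = (Nat.card {M : Matrix (Fin n) (Fin n) (ZMod 3) // M.IsSymm ∧
      Nat.card {w : Fin n → ZMod 3 // M.mulVec w = 0} = 3 ^ r} : ℝ) / 3 ^ (n * (n + 1) / 2) ∧
      |corank n r - prob r| ≤ 3 ^ r * (1 / 3 : ℝ) ^ n) ∧
    -- the error for the sets of more than `X ^ (2/3 + η)` elements
    (∀ (η : ℝ) (k X s : ℕ), 1 ≤ X → (X : ℝ) ^ (2 / 3 + η) ≤ s →
      error k X s ≤ 42 * 3 ^ (k * (k + 1) / 2) * (s : ℝ) ^ k / (X : ℝ) ^ (3 * η / 4)) :=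
  ⟨fun _ _ _ C _ hk hX hs hC hCs he => ⟨fun R => law hk hX hs C hC hCs he R,
    average hk hX hs C hC hCs he, law3 hk hX hs C hC hCs he, fun m => small hk hX hs C hC hCs he m⟩,
    fun n r => ⟨(Pool.Agent.U120.DK.qS_cf r n).symm, by
      have h := Pool.Agent.U120.DK.qS_lim n r
      rw [Pool.Agent.U120.DK.qS_cf] at h
      exact h⟩,
    fun _ _ _ _ hX h => rel_small hX h⟩

end Pool.Agent.Results.MP_8cb858_nt.SelmerGroupsSparseSets
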