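import Pool.Agent.Results.MP_8cb858_nt.ThreeSelmerCubicTwists
import Pool.Agent.U687.MC.Avg

/-!
# The Selmer groups of the `k`-fold prime twists of EVERY `E_D` are governed by a Markov chain, and their
# distribution converges exponentially fast to a universal law

`K` is the field of third roots of unity, `E_D : y² + D y = x³`, and `SelRoot D` is the Selmer group of the
endomorphism `√-3` of `E_D`, of order `3 ^ (r + 1)`, `r = r(D)` (definitions and facts for one `D`:
`MP_8cb858_nt/ThreeSelmerCubicTwists.lean`, where the `D` are ordered by the norm).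

We fix an ARBITRARY `D = ∏ π_k ^ e_k` with `n` different primes `π_k = 1` modulo `3`, `e_k = 1, 2`, and twist it
successively by prime elements `q_k, …, q_1, q_0 = 1` modulo `3`, which are left to vary in this
order.  The density `P_{k+1}(r)` is the iterated one:

`lim_{X_k → ∞} mean_{q_k} ⋯ lim_{X_0 → ∞} mean_{q_0} [r(D q_k^{f_k} ⋯ q_0^{f_0}) = r]`,

the mean over the primes `q_i` with `N(q_i) ≤ X_i`, `N(q_i) = 1 + 3 a_i` modulo `9` (those that divide the
previous element are left out), where `f_i = 1, 2` and the `a_i` are arbitrary numbers such that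
`N(D q_k^{f_k} ⋯ q_0^{f_0})` is not `1` modulo `9`.  Let `A` be the symmetric matrix `(e_j χ_{jk} e_k)` over the
field with three elements, `(π_k / π_j)_3 = η ^ χ_{jk}`.

* All the limits exist, and `P_1(r)` is the share of the diagonal matrices `Y` for which `A + Y` has corank `r`.
* `P_{k+2}(r) = (1 - 3^{-(r+1)}) P_{k+1}(r + 1) + 2 · 3^{-(r+1)} P_{k+1}(r) + 3^{-r} P_{k+1}(r - 1)`: the ranks `r`
  of the successive twists form a Markov chain with the transition probabilities `r → r - 1`:
  `1 - 3^{-r}`, `r → r`: `2 · 3^{-(r+1)}`, `r → r + 1`: `3^{-(r+1)}`, whatever the `a_i` and `f_i` are.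
* Let `prob r = ∏_{i ≥ 0} (1 - 3^{-(2 i + 1)}) / ((3 - 1) (9 - 1) ⋯ (3 ^ r - 1))`, the law of the family ordered
  by the norm.  Then `|P_{k+1}(r) - prob r| ≤ (3/2) (2^n + 1) (2/3)^k 2^{-r}`: for EVERY `D` the densities
  converge exponentially fast to the same law.
* The mean order of `SelRoot` is exactly `6 + (m - 6) / 3^k` for the `(k + 1)`-fold twists, `m` being the mean
  order for the prime twists; it converges to `6`.
* The density of the `D q_k^{f_k} ⋯ q_0^{f_0}` for which the `3`-Selmer group `Sel3` has the smallest possible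
  order `3` is `P_{k+1}(0)`; it converges to `prob 0 = 0.639...`.

Method: cubic reciprocity, the joint law of the cubic residue symbols of a variable prime (library: the
theorem of Chebotarev), the theorem on `SelRoot` of the named file; the corank of a symmetric matrix
with a random new row and column; and a contraction for the cumulative distribution functions in the
norm `sup 2^r |F(r)|`.
-/

set_option autoImplicit false

namespace Pool.Agent.Results.MP_8cb858_nt.SelmerMarkovChain

open NumberField WeierstrassCurve Filter Topology Matrix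
open Pool.Agent.Results.MP_8cb858_nt.ThreeSelmerCubicTwists
open scoped Classical

variable {K : Type} [Field K] [NumberField K]

/-- The prime elements that are `1` modulo `3`, of norm at most `X` and `1 + 3 a` modulo `9`. -/
def Primes (K : Type) [Field K] [NumberField K] (a : ZMod 3) (X : ℕ) : Set (𝓞 K) :=
  {q : 𝓞 K | Prime q ∧ (3 : 𝓞 K) ∣ q - 1 ∧ Algebra.norm ℤ q ≤ X ∧
    Algebra.norm ℤ q % 9 = 1 + 3 * (a.val : ℤ)}

/-- The mean of `T q` over the primes `q` of `Primes K a X`; the terms of the finitely many `q` that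
divide `D` are left out. -/
noncomputable def average (a : ZMod 3) (D : 𝓞 K) (T : 𝓞 K → ℝ) (X : ℕ) : ℝ :=
  (∑ᶠ q ∈ {q : 𝓞 K | q ∈ Primes K a X ∧ ¬ q ∣ D}, T q) / ((Primes K a X).ncard : ℝ)

/-- The iterated limits of the means of `T` over the `k`-fold prime twists of `D`. -/
noncomputable def iterated (a f : ℕ → ZMod 3) (T : 𝓞 K → ℝ) : ℕ → 𝓞 K → ℝ
  | 0, D => T D
  | k + 1, D => limUnder atTop (average (a k) D (fun q => iterated a f T k (D * q ^ (f k).val)))

/-- `1` if `SelRoot D` has order `3 ^ (r + 1)`, and `0` otherwise. -/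
noncomputable def rankIs (r : ℕ) (D : 𝓞 K) : ℝ :=
  if (SelRoot (D : K)).ncard = 3 ^ (r + 1) then 1 else 0

/-- `1` if `Sel3 D` has order `3`, and `0` otherwise. -/
noncomputable def smallest (D : 𝓞 K) : ℝ := if Nat.card (Sel3 (D : K)) = 3 then 1 else 0

/-- The order of `SelRoot D`. -/
noncomputable def order (D : 𝓞 K) : ℝ := ((SelRoot (D : K)).ncard : ℝ)

/-- The limits of the means over the last prime exist. -/
def LimitExists (a f : ℕ → ZMod 3) (T : 𝓞 K → ℝ) (k : ℕ) (D : 𝓞 K) : Prop :=
  Tendsto (average (a k) D (fun q => iterated a f T k (D * q ^ (f k).val))) atTop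
    (𝓝 (iterated a f T (k + 1) D))

/-- The matrix of the cubic residue symbols, weighted by the exponents. -/
def symbols {n : ℕ} (e : Fin n → ZMod 3) (χ : Fin n → Fin n → ZMod 3) :
    Matrix (Fin n) (Fin n) (ZMod 3) :=
  Matrix.of fun j k => e j * χ j k * e k

/-- The share of the diagonal matrices `Y` for which the rank of `A + Y` is `n - r`. -/
noncomputable def share {n : ℕ} (A : Matrix (Fin n) (Fin n) (ZMod 3)) (r : ℕ) : ℝ :=
  (Nat.card {y : Fin n → ZMod 3 // (A + diagonal y).rank + r = n} : ℝ) / 3 ^ n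

/-- One step of the Markov chain. -/
noncomputable def markov (μ : ℕ → ℝ) (r : ℕ) : ℝ :=
  (1 - (1 / 3) ^ (r + 1)) * μ (r + 1) + 2 * (1 / 3) ^ (r + 1) * μ r +
    (if r = 0 then 0 else (1 / 3) ^ r * μ (r - 1))

/-- The law of the Markov chain at the time `k`. -/
noncomputable def chain {n : ℕ} (A : Matrix (Fin n) (Fin n) (ZMod 3)) : ℕ → ℕ → ℝ
  | 0 => share A
  | k + 1 => markov (chain A k)

/-- The norm of `D q_k^{f_k} ⋯ q_0^{f_0}` is not `1` modulo `9` if `N(q_i) = 1 + 3 a_i` modulo `9`. -/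
def NotExceptional (a f : ℕ → ZMod 3) (k : ℕ) (D : 𝓞 K) : Prop :=
  ¬ (9 : ℤ) ∣ Algebra.norm ℤ D * ∏ i ∈ Finset.range (k + 1),
    (1 + 3 * ((a i).val : ℤ)) ^ (f i).val - 1

section proof

open Pool.Agent.U687.KT Pool.Agent.U687.MC
open Pool.Agent.Y692.QS (Ei w nr)

theorem iterated_eq (a f : ℕ → ZMod 3) (T : 𝓞 K → ℝ) (k : ℕ) :
    ∀ D : 𝓞 K, iterated a f T k D = it a f T k D := by
  induction k with
  | zero =>
    intro D
    rfl
  | succ k ih =>
    intro D
    show limUnder atTop (average (a k) D (fun q => iterated a f T k (D * q ^ (f k).val))) =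
      limUnder atTop (av (a k) D (fun q => it a f T k (D * q ^ (f k).val)))
    have h : (fun q => iterated a f T k (D * q ^ (f k).val)) =
        fun q => it a f T k (D * q ^ (f k).val) := funext fun q => ih _
    rw [h]
    rfl

theorem chain_eq {n : ℕ} {A : Matrix (Fin n) (Fin n) (ZMod 3)} (hA : A.IsSymm) (k : ℕ) :
    chain A k = dd k A := by
  induction k with
  | zero =>
    funext r
    exact (dd_zero A r).symm
  | succ k ih =>
    funext r
    rw [dd_succ k hA r, ← ih]
    rfl

theorem exists_root [IsCyclotomicExtension {3} ℚ K] : ∃ ω : K, ω ^ 2 + ω + 1 = 0 := by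
  obtain ⟨⟨j, hj⟩, -⟩ := Pool.Agent.Y455.CTK.jex K
  have hww : (w : Ei) ^ 2 + w + 1 = 0 := by
    decide
  refine ⟨((j w : 𝓞 K) : K), ?_⟩
  have h2 := congrArg (fun z => ((j z : 𝓞 K) : K)) hww
  simp only [map_add, map_pow, map_one, map_zero] at h2
  exact h2

theorem pow_inj' {a b : ℕ} (h : 3 ^ a = 3 ^ b) : a = b :=
  Nat.pow_right_injective (by norm_num : 2 ≤ 3) h

/-- **the main theorem for a function of the rank** -/
theorem main [IsCyclotomicExtension {3} ℚ K] (G : ℕ → ℝ) (T : 𝓞 K → ℝ)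
    (hT : ∀ D : 𝓞 K, InClass D → ∀ r s : ℕ, (SelRoot (D : K)).ncard = 3 ^ (r + 1) →
      Nat.card (Sel3 (D : K)) = 3 ^ (s + 1) → r ≤ s → s ≤ 2 * r → T D = G r)
    {η : 𝓞 K} (hη : η ^ 2 + η + 1 = 0) {a f : ℕ → ZMod 3} (hf : ∀ i, f i ≠ 0) {D : 𝓞 K} {n : ℕ}
    {π : Fin n → 𝓞 K} {e : Fin n → ZMod 3} {χ : Fin n → Fin n → ZMod 3}
    (h : IsFact η D n π e χ) {k : ℕ} (hk : NotExceptional a f k D) :
    LimitExists a f T k D ∧ iterated a f T (k + 1) D = EE k (SM e χ) G ∧ (SM e χ).IsSymm := by
  obtain ⟨⟨j, hj⟩, -⟩ := Pool.Agent.Y455.CTK.jex K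
  obtain ⟨j, hj, rfl⟩ := exists_j j hj hη
  obtain ⟨-, h2, -⟩ := Pool.Agent.Results.MP_8cb858_nt.ThreeSelmerCubicTwists.result K
  obtain ⟨m1, m2⟩ := it_main j hj a f hf T G (by
    intro D n π e χ hR h9 r hr
    obtain ⟨c1, c2⟩ := rf_class j hj hR
    have hC : InClass D := ⟨c1, c2, h9⟩
    obtain ⟨⟨r', s, b1, b2, b3, b4, -⟩, -, b5⟩ := h2 D hC
    have b6 : (SelRoot (D : K)).ncard = 3 ^ (r + 1) := by
      rw [b5 (j w) n π e χ hη hR]
      exact hr
    have b7 : r' = r := by
      rw [b1] at b6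
      have := pow_inj' b6
      omega
    subst b7
    exact hT D hC r' s b1 b2 b3 b4) k D n π e χ h hk
  refine ⟨?_, ?_, SM_symm (rf_symm j hj h)⟩
  · unfold LimitExists
    rw [iterated_eq, m2]
    have h3 : (fun q => iterated a f T k (D * q ^ (f k).val)) =
        fun q => it a f T k (D * q ^ (f k).val) := funext fun q => iterated_eq a f T k _
    rw [h3]
    exact m1
  · rw [iterated_eq, m2]

end proof

open Pool.Agent.U687.KT in
open Pool.Agent.U687.MC hiding prob in
/-- **The Markov chain of the Selmer groups of the iterated prime twists.** -/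
theorem result (K : Type) [Field K] [NumberField K] [IsCyclotomicExtension {3} ℚ K] :
    (∀ (η : 𝓞 K) (a f : ℕ → ZMod 3) (D : 𝓞 K) (n : ℕ) (π : Fin n → 𝓞 K) (e : Fin n → ZMod 3)
      (χ : Fin n → Fin n → ZMod 3) (k : ℕ), η ^ 2 + η + 1 = 0 → (∀ i, f i ≠ 0) →
      IsFact η D n π e χ → NotExceptional a f k D →
      (∀ r, LimitExists a f (rankIs r) k D ∧
        iterated a f (rankIs r) (k + 1) D = chain (symbols e χ) k r ∧
        |iterated a f (rankIs r) (k + 1) D - prob r| ≤
          3 / 2 * (2 ^ n + 1) * (2 / 3) ^ k / 2 ^ r) ∧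
      (LimitExists a f order k D ∧ iterated a f order (k + 1) D =
        6 + (3 * ∑ r ∈ Finset.range (n + 1), 3 ^ r * share (symbols e χ) r - 6) / 3 ^ k) ∧
      (LimitExists a f smallest k D ∧
        iterated a f smallest (k + 1) D = chain (symbols e χ) k 0)) ∧
    (∀ (f : ℕ → ZMod 3) (D : 𝓞 K), (∀ i, f i ≠ 0) → InClass D →
      (∀ r, Tendsto (fun k => iterated (fun _ => 0) f (rankIs r) k D) atTop (𝓝 (prob r))) ∧
      Tendsto (fun k => iterated (fun _ => 0) f order k D) atTop (𝓝 6) ∧
      Tendsto (fun k => iterated (fun _ => 0) f smallest k D) atTop (𝓝 (prob 0))) ∧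
    (∀ r, markov prob r = prob r) ∧ (∀ r, 0 < prob r) ∧ HasSum prob 1 := by
  have part1 : ∀ (η : 𝓞 K) (a f : ℕ → ZMod 3) (D : 𝓞 K) (n : ℕ) (π : Fin n → 𝓞 K)
      (e : Fin n → ZMod 3)
      (χ : Fin n → Fin n → ZMod 3) (k : ℕ), η ^ 2 + η + 1 = 0 → (∀ i, f i ≠ 0) →
      IsFact η D n π e χ → NotExceptional a f k D →
      (∀ r, LimitExists a f (rankIs r) k D ∧
        iterated a f (rankIs r) (k + 1) D = chain (symbols e χ) k r ∧
        |iterated a f (rankIs r) (k + 1) D - prob r| ≤
          3 / 2 * (2 ^ n + 1) * (2 / 3) ^ k / 2 ^ r) ∧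
      (LimitExists a f order k D ∧ iterated a f order (k + 1) D =
        6 + (3 * ∑ r ∈ Finset.range (n + 1), 3 ^ r * share (symbols e χ) r - 6) / 3 ^ k) ∧
      (LimitExists a f smallest k D ∧
        iterated a f smallest (k + 1) D = chain (symbols e χ) k 0) := by
    intro η a f D n π e χ k hη hf h hk
    refine ⟨fun r => ?_, ?_, ?_⟩
    · obtain ⟨h1, h2, h3⟩ := main (K := K) (pt r) (rankIs r) (by
        intro D _ r' s b1 _ _ _
        unfold rankIs pt
        rw [b1]
        by_cases hr : r' = r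
        · rw [hr, if_pos rfl, if_pos rfl]
        · rw [if_neg hr, if_neg fun h => hr (by have := pow_inj' h; omega)]) hη hf h hk
      refine ⟨h1, ?_, ?_⟩
      · rw [h2]
        show dd k (SM e χ) r = chain (SM e χ) k r
        rw [chain_eq h3]
      · rw [h2]
        exact conv k h3 r
    · obtain ⟨h1, h2, h3⟩ := main (K := K) (fun r => 3 * 3 ^ r) order (by
        intro D _ r' s b1 _ _ _
        unfold order
        rw [b1, pow_succ']
        push_cast
        rfl) hη hf h hk
      refine ⟨h1, ?_⟩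
      rw [h2, EE_smul k (SM e χ) 3 (fun r => (3 : ℝ) ^ r), EE_three k h3]
      have h4 : EE 0 (SM e χ) (fun r => (3 : ℝ) ^ r) =
          ∑ r ∈ Finset.range (n + 1), 3 ^ r * share (symbols e χ) r := by
        have h5 := sum_shr (SM e χ) (fun r => (3 : ℝ) ^ r)
        show (∑ y : Fin n → ZMod 3, (3 : ℝ) ^ (n - (SM e χ + diagonal y).rank)) / 3 ^ n = _
        rw [← h5]
        rfl
      rw [h4]
      ring
    · obtain ⟨h1, h2, h3⟩ := main (K := K) (pt 0) smallest (by
        intro D _ r' s _ b2 b3 b4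
        unfold smallest pt
        rw [b2]
        by_cases hr : r' = 0
        · have : s = 0 := by omega
          rw [hr, this, if_pos (by norm_num), if_pos rfl]
        · rw [if_neg hr, if_neg fun h => ?_]
          have h4 : 3 ^ (s + 1) = 3 ^ 1 := h
          have := pow_inj' h4
          omega) hη hf h hk
      refine ⟨h1, ?_⟩
      rw [h2]
      show dd k (SM e χ) 0 = chain (SM e χ) k 0
      rw [chain_eq h3]
  refine ⟨part1, ?_, TT_prob, prob_pos, prob_hasSum⟩
  intro f D hf hD
  obtain ⟨-, h2, -⟩ := Pool.Agent.Results.MP_8cb858_nt.ThreeSelmerCubicTwists.result K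
  obtain ⟨-, ⟨η, n, π, e, χ, hη, hfact⟩, -⟩ := h2 D hD
  have hne : ∀ k, NotExceptional (fun _ => 0) f k D := by
    intro k
    unfold NotExceptional
    have : ∏ i ∈ Finset.range (k + 1), (1 + 3 * (((0 : ZMod 3)).val : ℤ)) ^ (f i).val = 1 := by
      refine Finset.prod_eq_one fun i _ => ?_
      rw [ZMod.val_zero]
      simp
    rw [this, mul_one]
    exact hD.2.2
  have hp : ∀ k, _ := fun k => part1 η (fun _ => 0) f D n π e χ k hη hf hfact (hne k)
  have lim0 : ∀ c : ℝ, Tendsto (fun k : ℕ => c * (2 / 3 : ℝ) ^ k) atTop (𝓝 0) := by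
    intro c
    have := (tendsto_pow_atTop_nhds_zero_of_lt_one (r := (2 / 3 : ℝ)) (by norm_num)
      (by norm_num)).const_mul c
    rwa [mul_zero] at this
  have lim1 : ∀ r, Tendsto (fun k => iterated (fun _ => 0) f (rankIs r) k D) atTop
      (𝓝 (prob r)) := by
    intro r
    rw [← tendsto_add_atTop_iff_nat 1]
    rw [tendsto_iff_dist_tendsto_zero]
    refine squeeze_zero (fun k => dist_nonneg) (fun k => ?_)
      (lim0 (3 / 2 * (2 ^ n + 1) / 2 ^ r))
    rw [Real.dist_eq]
    refine ((hp k).1 r).2.2.trans (le_of_eq ?_)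
    ring
  refine ⟨lim1, ?_, ?_⟩
  · rw [← tendsto_add_atTop_iff_nat 1]
    have h3 : Tendsto (fun k : ℕ => 6 + (3 * ∑ r ∈ Finset.range (n + 1), 3 ^ r *
        share (symbols e χ) r - 6) * (1 / 3 : ℝ) ^ k) atTop (𝓝 (6 + (3 * ∑ r ∈ Finset.range (n + 1),
          3 ^ r * share (symbols e χ) r - 6) * 0)) :=
      ((tendsto_pow_atTop_nhds_zero_of_lt_one (r := (1 / 3 : ℝ)) (by norm_num)
        (by norm_num)).const_mul _).const_add 6
    rw [mul_zero, add_zero] at h3
    refine h3.congr fun k => ?_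
    rw [(hp k).2.1.2, div_pow, one_pow]
    ring
  · rw [← tendsto_add_atTop_iff_nat 1]
    have h3 := lim1 0
    rw [← tendsto_add_atTop_iff_nat 1] at h3
    refine h3.congr fun k => ?_
    rw [(hp k).2.2.2, ((hp k).1 0).2.1]

end Pool.Agent.Results.MP_8cb858_nt.SelmerMarkovChain
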