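import Mathlib
import Pool.Agent.TH841.SH.ShaDef
import Pool.Agent.U409.SH.Tor
import Pool.Agent.U214.PT.ShaQ
import Pool.Agent.U214.UN.Full2

/-!
# All moments of the order of the 2-Selmer group over the elliptic curves with full 2-torsion

Every elliptic curve over `ℚ` with full rational 2-torsion is isomorphic to
`E d a b : y² = x (x - d a) (x - d b)` with `a`, `b` coprime and `d` squarefree; its 2-Selmer group has
`4 * M` elements, `M = 2 ^ rank * #Ш[2]`. For every `d ≠ 0` and every `r` the `r`-th moment of `M` over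
the coprime pairs `(a, b)` with `|a|, |b| ≤ H` is at most `C (1 + log H) ^ kap r` with
`kap r = (2 ^ r - 1) (1 - 2 / 2 ^ r)`.
-/

set_option autoImplicit false

namespace Pool.Agent.Results.MP_8cb858_nt.TwoSelmerFullTorsion

open Finset
open Pool.Agent.TH841.SH.D (ShaTor rk)

/-- the curve `y² = x (x - d a) (x - d b)` over `ℚ` -/
def E (d a b : ℤ) : WeierstrassCurve ℚ :=
  ⟨0, -(((d * a : ℤ) : ℚ) + (d * b : ℤ)), 0, ((d * a : ℤ) : ℚ) * (d * b : ℤ), 0⟩

/-- `2 ^ rank * #Ш[2]` for the elliptic curve `W` over `ℚ` (`ShaTor W 2` are the elements of the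
Tate-Shafarevich group killed by `2`, `rk W` is the rank of the group of the rational points) -/
noncomputable def M (W : WeierstrassCurve ℚ) : ℕ := 2 ^ rk W * Nat.card (ShaTor W 2)

/-- the pairs `(a, b)` of coprime integers with `|a|, |b| ≤ H` and `E 1 a b` nonsingular -/
noncomputable def Pairs (H : ℕ) : Finset (ℤ × ℤ) :=
  ((Icc (-(H : ℤ)) H) ×ˢ (Icc (-(H : ℤ)) H)).filter (fun w : ℤ × ℤ =>
    IsCoprime w.1 w.2 ∧ w.1 * w.2 * (w.1 - w.2) ≠ 0)

/-- the exponent; `kap 1 = 0` -/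
noncomputable def kap (r : ℕ) : ℝ := ((2 : ℝ) ^ r - 1) * (1 - 2 / 2 ^ r)

/-- All moments of `2 ^ rank * #Ш[2]`, and the number of the curves with a large 2-Selmer group. -/
theorem result (d : ℤ) (hd : d ≠ 0) (r : ℕ) : ∃ C : ℝ, ∀ H : ℕ, 1 ≤ H →
    ∑ w ∈ Pairs H, (M (E d w.1 w.2) : ℝ) ^ r ≤ C * ((H : ℝ) ^ 2 * (1 + Real.log H) ^ kap r) ∧
    ∀ R : ℕ, (((Pairs H).filter (fun w => 2 ^ R ≤ M (E d w.1 w.2))).card : ℝ) ≤
      C / 2 ^ (r * R) * ((H : ℝ) ^ 2 * (1 + Real.log H) ^ kap r) := by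
  classical
  obtain ⟨C, hC⟩ := Pool.Agent.U214.UN.full2 Pool.Agent.U214.GT.qq_QL hd r
  have hM : ∀ a b : ℤ, (Pool.Agent.U409.SH.qq (d * a) (d * b) : ℝ) = (M (E d a b) : ℝ) := by
    intro a b
    rw [Pool.Agent.U409.SH.qq_eq]
    exact congrArg (fun x : ℕ => (x : ℝ)) (Pool.Agent.U409.SH.Mn_eq _).symm
  have hC' : ∀ H : ℕ, 1 ≤ H → ∑ w ∈ Pairs H, (M (E d w.1 w.2) : ℝ) ^ r ≤
      C * ((H : ℝ) ^ 2 * (1 + Real.log H) ^ kap r) := fun H hH => by
    have h1 := hC H hH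
    simp only [hM] at h1
    exact h1
  refine ⟨C, fun H hH => ⟨hC' H hH, fun R => ?_⟩⟩
  have h1 := hC' H hH
  rw [div_mul_eq_mul_div, le_div_iff₀ (by positivity)]
  refine le_trans ?_ h1
  rw [← nsmul_eq_mul, ← sum_const]
  refine (sum_le_sum fun t ht => ?_).trans (sum_le_sum_of_subset_of_nonneg (filter_subset _ _)
    fun t _ _ => pow_nonneg (Nat.cast_nonneg _) _)
  have h2 := (mem_filter.1 ht).2
  have h3 : (2 : ℝ) ^ R ≤ (M (E d t.1 t.2) : ℝ) := by
    exact_mod_cast h2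
  rw [mul_comm r R, pow_mul]
  exact pow_le_pow_left₀ (by positivity) h3 r

end Pool.Agent.Results.MP_8cb858_nt.TwoSelmerFullTorsion
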